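import Pool.Agent.N657.QR.Defs

/-!
# Statements of project QR
-/

namespace Pool.Agent.N657.QR

open Filter Topology

/-- BAS: elementary facts. -/
structure S_BAS : Prop where
  crcomm : ∀ {V : Type} [Fintype V] [DecidableEq V] (x y : V) (ψ : (V → ℤ) → ℝ),
    cr x y ψ = cr y x ψ
  crself : ∀ {V : Type} [Fintype V] [DecidableEq V] (x : V) (ψ : (V → ℤ) → ℝ), cr x x ψ = nr ψ
  crsum : ∀ {V : Type} [Fintype V] [DecidableEq V] (x y : V) (ψ : (V → ℤ) → ℝ),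
    Summable (fun n => ψ n ^ 2) → Summable (fun n => ψ (hp x y n) * ψ n)
  xxsum : ∀ {V : Type} [Fintype V] [DecidableEq V] (x : V) (ψ : (V → ℤ) → ℝ),
    Summable (fun n => ψ n ^ 2) → Summable (fun n => ψ (n + dl x) * ψ n)
  crle : ∀ {V : Type} [Fintype V] [DecidableEq V] (x y : V) (ψ : (V → ℤ) → ℝ),
    Summable (fun n => ψ n ^ 2) → |cr x y ψ| ≤ nr ψ
  xxle : ∀ {V : Type} [Fintype V] [DecidableEq V] (x : V) (ψ : (V → ℤ) → ℝ),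
    Summable (fun n => ψ n ^ 2) → |xx x ψ| ≤ nr ψ
  potnn : ∀ {V : Type} [Fintype V] [DecidableEq V] (K : Matrix V V ℝ) (ν : V → ℝ) (n : V → ℤ),
    K.PosSemidef → 0 ≤ pot K ν n
  potlow : ∀ {V : Type} [Fintype V] [DecidableEq V] (K : Matrix V V ℝ) (ν : V → ℝ),
    K.PosDef → ∃ κ C : ℝ, 0 < κ ∧ ∀ n, κ * sq n - C ≤ pot K ν n
  potup : ∀ {V : Type} [Fintype V] [DecidableEq V] (K : Matrix V V ℝ) (ν : V → ℝ),
    ∃ C : ℝ, 0 ≤ C ∧ ∀ n, |pot K ν n| ≤ C * (1 + sq n)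
  posum : ∀ {V : Type} [Fintype V] [DecidableEq V] (K : Matrix V V ℝ) (ν : V → ℝ)
    (ψ : (V → ℤ) → ℝ), FE ψ → Summable (fun n => pot K ν n * ψ n ^ 2)
  fsFE : ∀ {V : Type} [Fintype V] [DecidableEq V] (ψ : (V → ℤ) → ℝ), fs ψ → FE ψ
  nrsmul : ∀ {V : Type} [Fintype V] [DecidableEq V] (c : ℝ) (ψ : (V → ℤ) → ℝ),
    nr (fun n => c * ψ n) = c ^ 2 * nr ψ
  FFsmul : ∀ {V : Type} [Fintype V] [DecidableEq V] (K : Matrix V V ℝ) (w : V → V → ℝ)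
    (ν : V → ℝ) (c : ℝ) (ψ : (V → ℤ) → ℝ),
    FF K w ν (fun n => c * ψ n) = c ^ 2 * FF K w ν ψ
  enle : ∀ {V : Type} [Fintype V] [DecidableEq V] [Nonempty V] (K : Matrix V V ℝ)
    (w : V → V → ℝ) (ν : V → ℝ) (N : ℤ) (ψ : (V → ℤ) → ℝ), K.PosSemidef →
    (∀ x y, 0 ≤ w x y) → fs ψ → Sec N ψ → en K w ν N * nr ψ ≤ FF K w ν ψ
  enlow : ∀ {V : Type} [Fintype V] [DecidableEq V] [Nonempty V] (K : Matrix V V ℝ)
    (w : V → V → ℝ) (ν : V → ℝ) (N : ℤ), K.PosSemidef → (∀ x y, 0 ≤ w x y) →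
    -(∑ x, ∑ y, w x y) ≤ en K w ν N
  enex : ∀ {V : Type} [Fintype V] [DecidableEq V] [Nonempty V] (K : Matrix V V ℝ)
    (w : V → V → ℝ) (ν : V → ℝ) (N : ℤ) (ε : ℝ), K.PosSemidef → (∀ x y, 0 ≤ w x y) → 0 < ε →
    ∃ ψ : (V → ℤ) → ℝ, fs ψ ∧ Sec N ψ ∧ nr ψ = 1 ∧ FF K w ν ψ < en K w ν N + ε

/-- FIN: the matrix inequality behind reflection positivity (finite matrices with a block
structure). -/
def S_FIN : Prop :=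
  ∀ {α β γ : Type} [DecidableEq α] [DecidableEq β] (A : Finset α) (B : Finset β)
    (M : α → β → ℝ) (r : α → γ) (s : β → γ),
    (∀ p q, M p q ≠ 0 → p ∈ A ∧ q ∈ B ∧ r p = s q) →
    ∃ (P : α → α → ℝ) (Q : β → β → ℝ),
      (∀ p p', P p p' = P p' p) ∧ (∀ q q', Q q q' = Q q' q) ∧
      (∀ p p', P p p' ≠ 0 → p ∈ A ∧ p' ∈ A ∧ r p = r p') ∧
      (∀ q q', Q q q' ≠ 0 → q ∈ B ∧ q' ∈ B ∧ s q = s q') ∧
      (∀ p p', ∑ t ∈ A, P p t * P p' t = ∑ q ∈ B, M p q * M p' q) ∧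
      (∀ q q', ∑ t ∈ B, Q q t * Q q' t = ∑ p ∈ A, M p q * M p q') ∧
      ∀ (C : α → α → ℝ) (D : β → β → ℝ),
        2 * (∑ p ∈ A, ∑ q ∈ B, ∑ p' ∈ A, ∑ q' ∈ B, M p q * C p p' * M p' q' * D q q') ≤
          (∑ p ∈ A, ∑ q ∈ A, ∑ p' ∈ A, ∑ q' ∈ A, P p q * C p p' * P p' q' * C q q') +
          (∑ p ∈ B, ∑ q ∈ B, ∑ p' ∈ B, ∑ q' ∈ B, Q p q * D p p' * Q p' q' * D q q')

/-- FSH: the same inequality for shift operators on `ℤ^V`. -/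
def S_FSH : Prop :=
  ∀ {V γ : Type} [Fintype V] [DecidableEq V] (M : (V → ℤ) → (V → ℤ) → ℝ)
    (r s : (V → ℤ) → γ) (A B : Set (V → ℤ)), fs2 M →
    (∀ p q, M p q ≠ 0 → p ∈ A ∧ q ∈ B ∧ r p = s q) →
    ∃ P Q : (V → ℤ) → (V → ℤ) → ℝ, fs2 P ∧ fs2 Q ∧
      (∀ p p', P p p' = P p' p) ∧ (∀ q q', Q q q' = Q q' q) ∧
      (∀ p p', P p p' ≠ 0 → p ∈ A ∧ p' ∈ A ∧ r p = r p') ∧
      (∀ q q', Q q q' ≠ 0 → q ∈ B ∧ q' ∈ B ∧ s q = s q') ∧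
      (∀ (h : (V → ℤ) → ℝ) (η : V → ℤ),
        (∑' z : (V → ℤ) × (V → ℤ), h z.1 * (M (z.1 + η) z.2 * M z.1 z.2)) =
          ∑' z : (V → ℤ) × (V → ℤ), h z.1 * (P (z.1 + η) z.2 * P z.1 z.2)) ∧
      (∀ (h : (V → ℤ) → ℝ) (η : V → ℤ),
        (∑' z : (V → ℤ) × (V → ℤ), h z.2 * (M z.1 (z.2 + η) * M z.1 z.2)) =
          ∑' z : (V → ℤ) × (V → ℤ), h z.1 * (Q (z.1 + η) z.2 * Q z.1 z.2)) ∧
      ∀ {ι : Type} [Fintype ι] (c d : ι → (V → ℤ) → ℝ) (η ζ : ι → V → ℤ),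
        2 * (∑' z : (V → ℤ) × (V → ℤ),
            M z.1 z.2 * ∑ i, ∑ j, c i z.1 * d j z.2 * M (z.1 + η i) (z.2 + ζ j)) ≤
          (∑' z : (V → ℤ) × (V → ℤ),
            P z.1 z.2 * ∑ i, ∑ j, c i z.1 * c j z.2 * P (z.1 + η i) (z.2 + η j)) +
          (∑' z : (V → ℤ) × (V → ℤ),
            Q z.1 z.2 * ∑ i, ∑ j, d i z.1 * d j z.2 * Q (z.1 + ζ i) (z.2 + ζ j))

/-- E2R: the reflection step for two replicas. -/
def S_E2R : Prop :=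
  ∀ {V : Type} [Fintype V] [DecidableEq V] (K₁ K₂ : Matrix V V ℝ) (w₁ w₂ : V → V → ℝ)
    (a b : V → ℝ) (A B : ℤ) (M : (V → ℤ) → (V → ℤ) → ℝ),
    K₁.PosSemidef → K₂.PosSemidef → (K₂ - K₁).PosSemidef →
    (∀ x y, 0 ≤ w₁ x y) → (∀ x y, 0 ≤ w₂ x y) → fs2 M → Par A B M →
    ∃ P Q : (V → ℤ) → (V → ℤ) → ℝ, fs2 P ∧ fs2 Q ∧ Par A A P ∧ Par B B Q ∧
      nr2 P = nr2 M ∧ nr2 Q = nr2 M ∧
      (E2 K₁ K₂ (w₁ ⊔ w₂) (w₁ ⊓ w₂) a a P + E2 K₁ K₂ (w₁ ⊔ w₂) (w₁ ⊓ w₂) b b Q) / 2 ≤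
        E2 K₁ K₂ w₁ w₂ a b M

/-- E2L: lower bound for the energy of two replicas. -/
def S_E2L : Prop :=
  ∀ {V : Type} [Fintype V] [DecidableEq V] [Nonempty V] (K₁ K₂ : Matrix V V ℝ)
    (w₁ w₂ : V → V → ℝ) (a b : V → ℝ) (N₁ N₂ : ℤ) (M : (V → ℤ) → (V → ℤ) → ℝ),
    K₁.PosSemidef → K₂.PosSemidef → (∀ x y, 0 ≤ w₁ x y) → (∀ x y, 0 ≤ w₂ x y) →
    fs2 M → Par (N₁ + N₂) (N₁ - N₂) M →
    (en K₁ w₁ (fun x => (a x + b x) / 2) N₁ + en K₂ w₂ (fun x => (a x - b x) / 2) N₂) * nr2 M ≤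
      E2 K₁ K₂ w₁ w₂ a b M

/-- E2P: the energy of a product of two wave functions. -/
def S_E2P : Prop :=
  ∀ {V : Type} [Fintype V] [DecidableEq V] (K₁ K₂ : Matrix V V ℝ)
    (w₁ w₂ : V → V → ℝ) (ν₁ ν₂ : V → ℝ) (N₁ N₂ : ℤ) (φ χ : (V → ℤ) → ℝ),
    K₁.PosSemidef → K₂.PosSemidef → fs φ → fs χ → Sec N₁ φ → Sec N₂ χ →
    ∃ M : (V → ℤ) → (V → ℤ) → ℝ, fs2 M ∧ Par (N₁ + N₂) (N₁ - N₂) M ∧ nr2 M = nr φ * nr χ ∧
      E2 K₁ K₂ w₁ w₂ (ν₁ + ν₂) (ν₁ - ν₂) M = FF K₁ w₁ ν₁ φ * nr χ + nr φ * FF K₂ w₂ ν₂ χ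

/-- RSD: the replica inequality for ground state energies. -/
def S_RSD : Prop :=
  ∀ {V : Type} [Fintype V] [DecidableEq V] [Nonempty V] (K₁ K₂ : Matrix V V ℝ)
    (w₁ w₂ : V → V → ℝ) (ν₁ ν₂ : V → ℝ) (N₁ N₂ : ℤ),
    K₁.PosSemidef → K₂.PosSemidef → (K₂ - K₁).PosSemidef →
    (∀ x y, 0 ≤ w₁ x y) → (∀ x y, 0 ≤ w₂ x y) →
    (en K₁ (w₁ ⊔ w₂) (ν₁ + ν₂) (N₁ + N₂) + en K₁ (w₁ ⊔ w₂) (ν₁ - ν₂) (N₁ - N₂)) / 2
        + en K₂ (w₁ ⊓ w₂) 0 0 ≤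
      en K₁ w₁ ν₁ N₁ + en K₂ w₂ ν₂ N₂

/-- DIA: at the neutral background the sector without excess particles has the lowest energy. -/
def S_DIA : Prop :=
  ∀ {V : Type} [Fintype V] [DecidableEq V] [Nonempty V] (K : Matrix V V ℝ) (w : V → V → ℝ),
    K.PosSemidef → (∀ x y, 0 ≤ w x y) →
    (∀ N : ℤ, en K w 0 0 ≤ en K w 0 N) ∧
      ∀ ψ : (V → ℤ) → ℝ, fs ψ → en K w 0 0 * nr ψ ≤ FF K w 0 ψ

/-- INC: the energy decreases faster in each hopping amplitude away from the neutral point. -/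
def S_INC : Prop :=
  ∀ {V : Type} [Fintype V] [DecidableEq V] [Nonempty V] (K K' : Matrix V V ℝ)
    (w w' : V → V → ℝ) (ν : V → ℝ) (N : ℤ) (x y : V) (s : ℝ),
    K.PosSemidef → K'.PosSemidef → (K' - K).PosSemidef →
    (∀ x y, 0 ≤ w' x y) → (∀ x y, w' x y ≤ w x y) → 0 ≤ s →
    en K (bump w x y s) ν N + en K' w' 0 0 ≤ en K w ν N + en K' (bump w' x y s) 0 0

/-- APP: functions of finite energy are approximated by functions with finite support. -/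
def S_APP : Prop :=
  ∀ {V : Type} [Fintype V] [DecidableEq V] (ψ : (V → ℤ) → ℝ), FE ψ →
    ∃ f : ℕ → (V → ℤ) → ℝ, (∀ k, fs (f k)) ∧ (∀ k n, f k n = ψ n ∨ f k n = 0) ∧
      Tendsto (fun k => nr (f k)) atTop (𝓝 (nr ψ)) ∧
      Tendsto (fun k => ∑' n, sq n * f k n ^ 2) atTop (𝓝 (∑' n, sq n * ψ n ^ 2)) ∧
      (∀ (K : Matrix V V ℝ) (ν : V → ℝ), Tendsto (fun k => po K ν (f k)) atTop (𝓝 (po K ν ψ))) ∧
      (∀ x y, Tendsto (fun k => cr x y (f k)) atTop (𝓝 (cr x y ψ))) ∧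
      ∀ x, Tendsto (fun k => xx x (f k)) atTop (𝓝 (xx x ψ))

/-- LB: the variational lower bound for functions of finite energy. -/
def S_LB : Prop :=
  ∀ {V : Type} [Fintype V] [DecidableEq V] [Nonempty V] (K : Matrix V V ℝ) (w : V → V → ℝ)
    (ν : V → ℝ) (N : ℤ) (ψ : (V → ℤ) → ℝ),
    K.PosSemidef → (∀ x y, 0 ≤ w x y) → FE ψ → Sec N ψ →
    en K w ν N * nr ψ ≤ FF K w ν ψ

/-- CPT: compactness of minimising sequences. -/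
def S_CPT : Prop :=
  ∀ {V : Type} [Fintype V] [DecidableEq V] [Nonempty V] (K : Matrix V V ℝ) (w : V → V → ℝ)
    (ν : V → ℝ) (N : ℤ) (f : ℕ → (V → ℤ) → ℝ),
    K.PosDef → (∀ x y, 0 ≤ w x y) →
    (∀ k, FE (f k)) → (∀ k, Sec N (f k)) → (∀ k, nr (f k) = 1) →
    Tendsto (fun k => FF K w ν (f k)) atTop (𝓝 (en K w ν N)) →
    ∃ Φ, IsG K w ν N Φ ∧ ∃ g : ℕ → ℕ, StrictMono g ∧
      ∀ x y, Tendsto (fun k => cr x y (f (g k))) atTop (𝓝 (cr x y Φ))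

/-- EX: existence of ground states. -/
def S_EX : Prop :=
  ∀ {V : Type} [Fintype V] [DecidableEq V] [Nonempty V] (K : Matrix V V ℝ) (w : V → V → ℝ)
    (ν : V → ℝ) (N : ℤ), K.PosDef → (∀ x y, 0 ≤ w x y) → ∃ Φ, IsG K w ν N Φ

/-- EIG: the eigenvalue equation and decay. -/
def S_EIG : Prop :=
  ∀ {V : Type} [Fintype V] [DecidableEq V] [Nonempty V] (K : Matrix V V ℝ) (w : V → V → ℝ)
    (ν : V → ℝ) (N : ℤ) (Φ : (V → ℤ) → ℝ), K.PosDef → (∀ x y, 0 ≤ w x y) → IsG K w ν N Φ →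
    (∀ n, (pot K ν n - en K w ν N) * Φ n
        = (∑ x, ∑ y, w x y * (Φ (hp x y n) + Φ (hp y x n))) / 2) ∧
      Summable (fun n => sq n ^ 2 * Φ n ^ 2)

/-- UN: real ground states are unique up to sign and have no zeros in their sector. -/
def S_UN : Prop :=
  ∀ {V : Type} [Fintype V] [DecidableEq V] [Nonempty V] (K : Matrix V V ℝ) (w : V → V → ℝ)
    (ν : V → ℝ) (N : ℤ) (Φ Φ' : (V → ℤ) → ℝ), K.PosDef → (∀ x y, 0 ≤ w x y) → Conn w →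
    IsG K w ν N Φ → IsG K w ν N Φ' →
    (∀ x y, 0 ≤ cr x y Φ) ∧ ((∀ n, Φ' n = Φ n) ∨ ∀ n, Φ' n = -Φ n)

/-- CON: connectedness of the sectors. -/
def S_CON : Prop :=
  (∀ {V : Type} [Fintype V] [DecidableEq V] (w : V → V → ℝ),
    (∀ x y, Relation.ReflTransGen (fun a b => 0 < w a b ∨ 0 < w b a) x y) → Conn w) ∧
  (∀ (d L : ℕ) [NeZero L] (w : (Fin d → ZMod L) → (Fin d → ZMod L) → ℝ),
    (∀ x i, 0 < w x (x + ee i)) →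
    ∀ x y, Relation.ReflTransGen (fun a b => 0 < w a b ∨ 0 < w b a) x y) ∧
  (∀ (d L : ℕ) [NeZero L] (J : ℝ) (w : (Fin d → ZMod L) → (Fin d → ZMod L) → ℝ), 2 ≤ L →
    (∀ x y, 0 ≤ w x y) → (∀ x i, J ≤ w x (x + ee i)) → ∀ x y, nnw J x y ≤ w x y)

/-- RPS: reflection positivity for two layers. -/
def S_RPS : Prop :=
  ∀ {A : Type} [Fintype A] [DecidableEq A] (U : ℝ) (w : A → A → ℝ) (κ η : A → ℝ)
    (kf kt : A → ℝ) (E E' : ℝ),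
    (∀ a, 0 ≤ κ a) →
    (∀ ψ, fs ψ → E * nr ψ ≤ KK U w κ (fun x => kf x.1) ψ) →
    (∀ ψ, fs ψ → E' * nr ψ ≤ KK U w κ (fun x => kt x.1) ψ) →
    ∀ ψ, fs ψ → (E + E') / 2 * nr ψ ≤
      KK U w κ (fun x => if x.2 then kt x.1 - κ x.1 * η x.1 else kf x.1 + κ x.1 * η x.1) ψ
        + (∑ a, κ a * η a ^ 2) / 2 * nr ψ

/-- RPV: reflection positivity for a reflection `r` of the sites. -/
def S_RPV : Prop :=
  ∀ {V : Type} [Fintype V] [DecidableEq V] (U : ℝ) (w : V → V → ℝ) (r : V → V) (σ : V → Bool)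
    (k η : V → ℝ) (E E' : ℝ),
    (∀ x, r (r x) = x) → (∀ x, σ (r x) = !σ x) → (∀ x, 0 ≤ w x (r x)) →
    (∀ x y, w (r x) (r y) = w x y) → (∀ x y, w x y = w y x) →
    (∀ x y, σ x ≠ σ y → y ≠ r x → w x y = 0) →
    (∀ ψ, fs ψ → E * nr ψ ≤
      HH U w (fun x => if σ x then k x - 2 * w x (r x) * η x
        else k (r x) - 2 * w x (r x) * η (r x)) ψ) →
    (∀ ψ, fs ψ → E' * nr ψ ≤
      HH U w (fun x => if σ x then k (r x) + 2 * w x (r x) * η x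
        else k x + 2 * w x (r x) * η (r x)) ψ) →
    ∀ ψ, fs ψ → (E + E') / 2 * nr ψ ≤
      HH U w k ψ + (∑ x, if σ x then w x (r x) * η x ^ 2 else 0) * nr ψ

/-- REFL: one reflection on the torus. -/
def S_REFL : Prop :=
  ∀ (d L : ℕ) [NeZero L] (U J : ℝ) (h : (Fin d → ZMod L) → Fin d → ℝ) (i : Fin d) (c : ZMod L)
    (E E' : ℝ), Even L → 0 ≤ J →
    (∀ ψ, fs ψ → E * nr ψ ≤ GK U J (rf i c true h) ψ) →
    (∀ ψ, fs ψ → E' * nr ψ ≤ GK U J (rf i c false h) ψ) →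
    ∀ ψ, fs ψ → (E + E') / 2 * nr ψ ≤ GK U J h ψ

/-- GD0: Gaussian domination for bond fields. -/
def S_GD0 : Prop :=
  ∀ (d L : ℕ) [NeZero L] (U J : ℝ) (h : (Fin d → ZMod L) → Fin d → ℝ), Even L → 0 ≤ U → 0 ≤ J →
    ∀ ψ, fs ψ → en (U • (1 : Matrix (Fin d → ZMod L) (Fin d → ZMod L) ℝ)) (nnw J) 0 0 * nr ψ ≤
      GK U J h ψ

/-- GD: Gaussian domination for eigenfunctions of the Laplace operator. -/
def S_GD : Prop :=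
  ∀ (d L : ℕ) [NeZero L] (U J l : ℝ) (f : (Fin d → ZMod L) → ℝ), Even L → 0 ≤ U → 0 ≤ J →
    (∀ x, lap f x = l * f x) →
    ∀ ψ, FE ψ → en (U • (1 : Matrix (Fin d → ZMod L) (Fin d → ZMod L) ℝ)) (nnw J) 0 0 * nr ψ ≤
      FF (U • (1 : Matrix (Fin d → ZMod L) (Fin d → ZMod L) ℝ)) (nnw J) 0 ψ
        - J * l * (∑ x, f x * xx x ψ) + J * l / 2 * (∑ x, f x ^ 2) * nr ψ

/-- DC: the double commutator. -/
def S_DC : Prop :=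
  ∀ {V : Type} [Fintype V] [DecidableEq V] [Nonempty V] (U : ℝ) (w : V → V → ℝ)
    (Ψ : (V → ℤ) → ℝ) (g : V → ℝ), 0 < U → (∀ x y, 0 ≤ w x y) →
    IsG (U • (1 : Matrix V V ℝ)) w 0 0 Ψ →
    FE (XA g Ψ) ∧ nr (XA g Ψ) = (∑ x, ∑ y, g x * g y * cr x y Ψ) / 2 ∧
      FF (U • (1 : Matrix V V ℝ)) w 0 (XA g Ψ)
        = en (U • (1 : Matrix V V ℝ)) w 0 0 * nr (XA g Ψ) + U / 2 * ∑ x, g x ^ 2

/-- IRB: the infrared bound for the ground state at the neutral point. -/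
def S_IRB : Prop :=
  ∀ (d L : ℕ) [NeZero L] (U J l : ℝ) (Ψ : ((Fin d → ZMod L) → ℤ) → ℝ)
    (f : (Fin d → ZMod L) → ℝ), Even L → 0 < U → 0 < J → 0 < l →
    IsG (U • (1 : Matrix (Fin d → ZMod L) (Fin d → ZMod L) ℝ)) (nnw J) 0 0 Ψ →
    (∀ x, lap f x = l * f x) →
    (∑ x, ∑ y, f x * f y * cr x y Ψ) ≤ Real.sqrt (U / J) / Real.sqrt l * ∑ x, f x ^ 2

/-- FOU: Plancherel on the torus. -/
def S_FOU : Prop :=
  ∀ (d L : ℕ) [NeZero L] (G : (Fin d → ZMod L) → (Fin d → ZMod L) → ℝ) (κ : ℝ),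
    (∀ (l : ℝ) (f : (Fin d → ZMod L) → ℝ), 0 < l → (∀ x, lap f x = l * f x) →
      (∑ x, ∑ y, f x * f y * G x y) ≤ κ / Real.sqrt l * ∑ x, f x ^ 2) →
    (∑ x, G x x) ≤ (∑ x, ∑ y, G x y) / (Fintype.card (Fin d → ZMod L) : ℝ)
      + κ * ∑ k ∈ (Finset.univ : Finset (Fin d → ZMod L)).erase 0, 1 / Real.sqrt (lam k)

/-- LAT: the lattice sum. -/
def S_LAT : Prop :=
  ∀ d : ℕ, 2 ≤ d → ∃ C : ℝ, 0 < C ∧ ∀ (L : ℕ) [NeZero L],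
    ∑ k ∈ (Finset.univ : Finset (Fin d → ZMod L)).erase 0, 1 / Real.sqrt (lam k) ≤
      C * (Fintype.card (Fin d → ZMod L) : ℝ)

/-- NEU: condensation at the neutral point. -/
def S_NEU : Prop :=
  ∀ d : ℕ, 2 ≤ d → ∃ C : ℝ, 0 < C ∧ ∀ (L : ℕ) [NeZero L] (U J : ℝ)
    (Ψ : ((Fin d → ZMod L) → ℤ) → ℝ), Even L → 0 < U → 0 < J →
    IsG (U • (1 : Matrix (Fin d → ZMod L) (Fin d → ZMod L) ℝ)) (nnw J) 0 0 Ψ →
    (1 - C * Real.sqrt (U / J)) * (Fintype.card (Fin d → ZMod L) : ℝ) ^ 2 ≤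
      ∑ x, ∑ y, cr x y Ψ

/-- CMP: the correlations are smallest at the neutral point. -/
def S_CMP : Prop :=
  ∀ {V : Type} [Fintype V] [DecidableEq V] [Nonempty V] (K K' : Matrix V V ℝ)
    (w w' : V → V → ℝ) (ν : V → ℝ) (N : ℤ) (Φ Ψ : (V → ℤ) → ℝ),
    K.PosDef → (K' - K).PosSemidef → (∀ x y, 0 ≤ w' x y) → (∀ x y, w' x y ≤ w x y) → Conn w →
    IsG K w ν N Φ → IsG K' w' 0 0 Ψ → ∀ x y, cr x y Ψ ≤ cr x y Φ

/-- CPX: complex ground states are multiples of real ground states. -/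
def S_CPX : Prop :=
  ∀ {V : Type} [Fintype V] [DecidableEq V] [Nonempty V] (K : Matrix V V ℝ) (w : V → V → ℝ)
    (ν : V → ℝ) (N : ℤ) (Φ : (V → ℤ) → ℝ), K.PosDef → (∀ x y, 0 ≤ w x y) → Conn w →
    IsG K w ν N Φ →
    IsGroundState K w ν N (fun n => (Φ n : ℂ)) ∧
      ∀ ψ : (V → ℤ) → ℂ, IsGroundState K w ν N ψ →
        (∃ c : ℂ, ‖c‖ = 1 ∧ ∀ n, ψ n = c * (Φ n : ℂ)) ∧ ∀ x y, (corr x y ψ).re = cr x y Φ

end Pool.Agent.N657.QR
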