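import Pool.Agent.N657.QR.Stm

/-!
# Project QR (helper657), part CPT (helper835): compactness of minimising sequences
-/

set_option autoImplicit false

namespace Pool.Agent.N657.QR.CPTN835

open Filter Topology Pool.Agent.N657.QR

variable {V : Type} [Fintype V] [DecidableEq V]


omit [DecidableEq V] in
lemma sq_nn (n : V → ℤ) : 0 ≤ Pool.Agent.N657.QR.sq n := Finset.sum_nonneg fun _ _ => sq_nonneg _

omit [DecidableEq V] in
lemma sq_fin (R : ℝ) : {n : V → ℤ | Pool.Agent.N657.QR.sq n ≤ R}.Finite := by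
  have h1 : {n : V → ℤ | Pool.Agent.N657.QR.sq n ≤ R} ⊆ Set.pi Set.univ fun _ => Set.Icc (-(⌈|R|⌉₊ : ℤ)) ⌈|R|⌉₊ := by
    intro n hn x _
    have h2 : ((n x : ℝ)) ^ 2 ≤ R := by
      refine le_trans ?_ hn
      exact Finset.single_le_sum (f := fun x => (n x : ℝ) ^ 2) (fun _ _ => sq_nonneg _)
        (Finset.mem_univ x)
    have h3 : |(n x : ℝ)| ≤ (n x : ℝ) ^ 2 := by
      have : (|n x| : ℤ) ≤ (n x) ^ 2 := by
        rw [← sq_abs]
        rcases (abs_nonneg (n x)).eq_or_lt with h | h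
        · rw [← h]; norm_num
        · nlinarith
      exact_mod_cast this
    have h4 : |(n x : ℝ)| ≤ (⌈|R|⌉₊ : ℝ) := h3.trans (h2.trans ((le_abs_self R).trans (Nat.le_ceil _)))
    have h5 : |n x| ≤ (⌈|R|⌉₊ : ℤ) := by exact_mod_cast h4
    exact Set.mem_Icc.2 (abs_le.1 h5)
  exact (Set.Finite.pi' fun _ => Set.finite_Icc _ _).subset fun n hn x => h1 hn x (Set.mem_univ x)

/-- products of a null sequence and a bounded sequence -/
lemma prod_null {I : Type} {u v : ℕ → I → ℝ} {M : ℝ} (hu : ∀ k, Summable fun n => u k n ^ 2)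
    (hv : ∀ k, Summable fun n => v k n ^ 2) (h0 : Tendsto (fun k => ∑' n, u k n ^ 2) atTop (𝓝 0))
    (hM : ∀ k, ∑' n, v k n ^ 2 ≤ M) :
    (∀ k, Summable fun n => u k n * v k n) ∧ Tendsto (fun k => ∑' n, u k n * v k n) atTop (𝓝 0) := by
  have hM0 : 0 ≤ M := le_trans (tsum_nonneg fun n => sq_nonneg _) (hM 0)
  have hpt : ∀ (δ : ℝ), 0 < δ → ∀ k n, |u k n * v k n| ≤ u k n ^ 2 / (2 * δ) + δ / 2 * v k n ^ 2 := by
    intro δ hδ k n
    rw [abs_mul]
    have h1 : 0 ≤ (|u k n| / δ - |v k n|) ^ 2 := sq_nonneg _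
    have h2 : (|u k n| / δ - |v k n|) ^ 2 = u k n ^ 2 / δ ^ 2 - 2 * (|u k n| * |v k n|) / δ + v k n ^ 2 := by
      have e1 := sq_abs (u k n)
      have e2 := sq_abs (v k n)
      field_simp
      nlinarith
    rw [h2] at h1
    have h3 : 0 ≤ δ / 2 * (u k n ^ 2 / δ ^ 2 - 2 * (|u k n| * |v k n|) / δ + v k n ^ 2) := by positivity
    have h4 : δ / 2 * (u k n ^ 2 / δ ^ 2 - 2 * (|u k n| * |v k n|) / δ + v k n ^ 2) =
        u k n ^ 2 / (2 * δ) - |u k n| * |v k n| + δ / 2 * v k n ^ 2 := by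
      field_simp
    linarith
  have hsumb : ∀ (δ : ℝ), 0 < δ → ∀ k,
      Summable fun n => u k n ^ 2 / (2 * δ) + δ / 2 * v k n ^ 2 := fun δ _ k =>
    ((hu k).div_const _).add ((hv k).mul_left _)
  have hs : ∀ k, Summable fun n => u k n * v k n := fun k =>
    Summable.of_abs ((hsumb 1 one_pos k).of_nonneg_of_le (fun n => abs_nonneg _) (hpt 1 one_pos k))
  refine ⟨hs, ?_⟩
  rw [Metric.tendsto_atTop]
  intro ε hε
  set δ := ε / (M + 1) with hδ
  have hδ0 : 0 < δ := by positivity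
  obtain ⟨k0, hk0⟩ := (Metric.tendsto_atTop.1 h0) (ε * δ / 2) (by positivity)
  refine ⟨k0, fun k hk => ?_⟩
  have h1 := hk0 k hk
  rw [Real.dist_eq, sub_zero, abs_of_nonneg (tsum_nonneg fun n => sq_nonneg _)] at h1
  rw [Real.dist_eq, sub_zero]
  have h2 : |∑' n, u k n * v k n| ≤ ∑' n, (u k n ^ 2 / (2 * δ) + δ / 2 * v k n ^ 2) := by
    have h3 : ‖∑' n, u k n * v k n‖ ≤ ∑' n, ‖u k n * v k n‖ := norm_tsum_le_tsum_norm (hs k).norm
    refine le_trans h3 ?_
    exact (hs k).norm.tsum_le_tsum (fun n => hpt δ hδ0 k n) (hsumb δ hδ0 k)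
  rw [((hu k).div_const _).tsum_add ((hv k).mul_left _), tsum_div_const, tsum_mul_left] at h2
  have h4 : (∑' n, u k n ^ 2) / (2 * δ) < ε / 4 := by
    rw [div_lt_iff₀ (by positivity)]
    linarith
  have h5 : δ / 2 * ∑' n, v k n ^ 2 ≤ ε / 2 := by
    have h6 : δ / 2 * ∑' n, v k n ^ 2 ≤ δ / 2 * (M + 1) :=
      mul_le_mul_of_nonneg_left ((hM k).trans (by linarith)) (by positivity)
    have h7 : δ / 2 * (M + 1) = ε / 2 := by rw [hδ]; field_simp
    linarith
  linarith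

/-- the shift -/
def sh (x y : V) : (V → ℤ) ≃ (V → ℤ) := Equiv.addRight (dl x - dl y)

omit [Fintype V] in
lemma sh_apply (x y : V) (n : V → ℤ) : sh x y n = hp x y n := by
  show n + (dl x - dl y) = n + dl x - dl y
  rw [add_sub_assoc]

omit [Fintype V] in
lemma sum_sh {x y : V} {ψ : (V → ℤ) → ℝ} (h : Summable fun n => ψ n) :
    Summable (fun n => ψ (hp x y n)) ∧ ∑' n, ψ (hp x y n) = ∑' n, ψ n := by
  have e : (fun n => ψ (hp x y n)) = (fun n => ψ n) ∘ sh x y := by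
    funext n
    show ψ (hp x y n) = ψ (sh x y n)
    rw [sh_apply]
  constructor
  · rw [e]
    exact (sh x y).summable_iff.2 h
  · rw [e]
    exact (sh x y).tsum_eq (fun n => ψ n)

set_option maxHeartbeats 4000000 in
theorem main (hB : S_BAS) (hL : S_LB) : S_CPT := by
  intro V _ _ _ K w ν N f hK hw hFE hSec hnr hlim
  have hKs : K.PosSemidef := hK.posSemidef
  set W0 : ℝ := ∑ x, ∑ y, w x y with hW0
  -- bounds for the potential energy
  have hcr : ∀ k, |∑ x, ∑ y, w x y * cr x y (f k)| ≤ W0 := by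
    intro k
    refine (Finset.abs_sum_le_sum_abs _ _).trans (Finset.sum_le_sum fun x _ => ?_)
    refine (Finset.abs_sum_le_sum_abs _ _).trans (Finset.sum_le_sum fun y _ => ?_)
    rw [abs_mul, abs_of_nonneg (hw x y)]
    have := hB.crle x y (f k) (hFE k).1
    rw [hnr k] at this
    calc w x y * |cr x y (f k)| ≤ w x y * 1 := mul_le_mul_of_nonneg_left this (hw x y)
      _ = w x y := mul_one _
  obtain ⟨C1, hC1⟩ := hlim.bddAbove_range
  have hC1' : ∀ k, FF K w ν (f k) ≤ C1 := fun k => hC1 ⟨k, rfl⟩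
  have hpo : ∀ k, po K ν (f k) ≤ C1 + W0 := by
    intro k
    have h1 := hC1' k
    have h2 := (abs_le.1 (hcr k)).2
    unfold FF at h1
    linarith
  obtain ⟨κ, C, hκ, hlow⟩ := hB.potlow K ν hK
  set C2 : ℝ := (C1 + W0 + C) / κ with hC2
  have hsq : ∀ k, ∑' n, Pool.Agent.N657.QR.sq n * f k n ^ 2 ≤ C2 := by
    intro k
    rw [hC2, le_div_iff₀ hκ]
    have h1 : ∑' n, (κ * (Pool.Agent.N657.QR.sq n * f k n ^ 2) - C * f k n ^ 2) ≤ po K ν (f k) := by
      refine Summable.tsum_le_tsum (fun n => ?_) (((hFE k).2.mul_left κ).sub ((hFE k).1.mul_left C))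
        (hB.posum K ν (f k) (hFE k))
      have := mul_le_mul_of_nonneg_right (hlow n) (sq_nonneg (f k n))
      linarith
    rw [((hFE k).2.mul_left κ).tsum_sub ((hFE k).1.mul_left C), tsum_mul_left, tsum_mul_left] at h1
    have h2 : ∑' n, f k n ^ 2 = 1 := hnr k
    rw [h2] at h1
    linarith [hpo k]
  have hC20 : 0 ≤ C2 :=
    le_trans (tsum_nonneg fun n => mul_nonneg (sq_nn n) (sq_nonneg _)) (hsq 0)
  -- compactness
  have hone : ∀ k n, f k n ^ 2 ≤ 1 := by
    intro k n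
    rw [← hnr k]
    exact (hFE k).1.le_tsum n fun _ _ => sq_nonneg _
  have hmem : ∀ k, f k ∈ Set.pi Set.univ fun _ : V → ℤ => Set.Icc (-1 : ℝ) 1 := by
    intro k n _
    exact Set.mem_Icc.2 (abs_le.1 ((sq_le_one_iff_abs_le_one _).1 (hone k n)))
  have hcomp : IsCompact (Set.pi Set.univ fun _ : V → ℤ => Set.Icc (-1 : ℝ) 1) :=
    isCompact_univ_pi fun _ => isCompact_Icc
  obtain ⟨Φ, _, g, hg, hgΦ⟩ := hcomp.tendsto_subseq hmem
  have hpt : ∀ n, Tendsto (fun k => f (g k) n) atTop (𝓝 (Φ n)) := fun n =>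
    (tendsto_pi_nhds.1 hgΦ) n
  have hptsq : ∀ n, Tendsto (fun k => f (g k) n ^ 2) atTop (𝓝 (Φ n ^ 2)) := fun n => (hpt n).pow 2
  -- Fatou
  have hF1 : Summable fun n => Φ n ^ 2 := by
    refine summable_of_sum_le (c := 1) (fun n => sq_nonneg _) fun S => ?_
    refine le_of_tendsto' (tendsto_finsetSum S fun n _ => hptsq n) fun k => ?_
    rw [← hnr (g k)]
    exact (hFE (g k)).1.sum_le_tsum S fun _ _ => sq_nonneg _
  have hF2s : ∀ S : Finset (V → ℤ), ∑ n ∈ S, Pool.Agent.N657.QR.sq n * Φ n ^ 2 ≤ C2 := by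
    intro S
    refine le_of_tendsto' (tendsto_finsetSum S fun n _ => (hptsq n).const_mul (Pool.Agent.N657.QR.sq n)) fun k => ?_
    exact ((hFE (g k)).2.sum_le_tsum S fun n _ => mul_nonneg (sq_nn n) (sq_nonneg _)).trans
      (hsq (g k))
  have hF2 : Summable fun n => Pool.Agent.N657.QR.sq n * Φ n ^ 2 :=
    summable_of_sum_le (fun n => mul_nonneg (sq_nn n) (sq_nonneg _)) hF2s
  have hF2t : ∑' n, Pool.Agent.N657.QR.sq n * Φ n ^ 2 ≤ C2 := hF2.tsum_le_of_sum_le hF2s
  have hFEΦ : FE Φ := ⟨hF1, hF2⟩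
  -- strong convergence
  have hdiffs : ∀ k, Summable fun n => (f (g k) n - Φ n) ^ 2 := by
    intro k
    refine (((hFE (g k)).1.mul_left 2).add (hF1.mul_left 2)).of_nonneg_of_le
      (fun n => sq_nonneg _) fun n => ?_
    nlinarith [sq_nonneg (f (g k) n + Φ n)]
  have hstrong : Tendsto (fun k => ∑' n, (f (g k) n - Φ n) ^ 2) atTop (𝓝 0) := by
    rw [Metric.tendsto_atTop]
    intro ε hε
    set R : ℝ := 8 * (C2 + 1) / ε with hR
    have hR0 : 0 < R := by positivity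
    set F : Finset (V → ℤ) := (sq_fin R).toFinset with hF
    have h1 : Tendsto (fun k => ∑ n ∈ F, (f (g k) n - Φ n) ^ 2) atTop (𝓝 0) := by
      have h2 : Tendsto (fun k => ∑ n ∈ F, (f (g k) n - Φ n) ^ 2) atTop
          (𝓝 (∑ n ∈ F, (Φ n - Φ n) ^ 2)) :=
        tendsto_finsetSum F fun n _ => ((hpt n).sub_const (Φ n)).pow 2
      simpa using h2
    obtain ⟨k0, hk0⟩ := (Metric.tendsto_atTop.1 h1) (ε / 2) (by positivity)
    refine ⟨k0, fun k hk => ?_⟩
    have h3 := hk0 k hk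
    rw [Real.dist_eq, sub_zero, abs_of_nonneg (Finset.sum_nonneg fun n _ => sq_nonneg _)] at h3
    rw [Real.dist_eq, sub_zero, abs_of_nonneg (tsum_nonneg fun n => sq_nonneg _)]
    classical
    have hind : Summable fun n => if n ∈ F then (f (g k) n - Φ n) ^ 2 else 0 :=
      summable_of_ne_finset_zero (s := F) fun n hn => if_neg hn
    have hindt : ∑' n, (if n ∈ F then (f (g k) n - Φ n) ^ 2 else 0) =
        ∑ n ∈ F, (f (g k) n - Φ n) ^ 2 := by
      rw [tsum_eq_sum (s := F) fun n hn => if_neg hn]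
      exact Finset.sum_congr rfl fun n hn => if_pos hn
    have h4 : ∑' n, (f (g k) n - Φ n) ^ 2 ≤ ∑' n, ((if n ∈ F then (f (g k) n - Φ n) ^ 2 else 0) +
        2 / R * (Pool.Agent.N657.QR.sq n * f (g k) n ^ 2 + Pool.Agent.N657.QR.sq n * Φ n ^ 2)) := by
      refine Summable.tsum_le_tsum (fun n => ?_) (hdiffs k)
        (hind.add (((hFE (g k)).2.add hF2).mul_left _))
      have hnn : 0 ≤ 2 / R * (Pool.Agent.N657.QR.sq n * f (g k) n ^ 2 + Pool.Agent.N657.QR.sq n * Φ n ^ 2) := by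
        have := sq_nn n
        positivity
      split_ifs with hn
      · linarith
      · have hn' : R < Pool.Agent.N657.QR.sq n := by
          rw [hF, Set.Finite.mem_toFinset, Set.mem_ofPred_eq, not_le] at hn
          exact hn
        have h5 : 2 * (f (g k) n ^ 2 + Φ n ^ 2) ≤
            2 / R * (Pool.Agent.N657.QR.sq n * f (g k) n ^ 2 + Pool.Agent.N657.QR.sq n * Φ n ^ 2) := by
          have h6 : 2 / R * (Pool.Agent.N657.QR.sq n * f (g k) n ^ 2 + Pool.Agent.N657.QR.sq n * Φ n ^ 2) =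
              2 * (Pool.Agent.N657.QR.sq n / R) * (f (g k) n ^ 2 + Φ n ^ 2) := by ring
          rw [h6]
          have h7 : 1 ≤ Pool.Agent.N657.QR.sq n / R := by rw [le_div_iff₀ hR0]; linarith
          have h8 : 0 ≤ f (g k) n ^ 2 + Φ n ^ 2 := by positivity
          nlinarith
        nlinarith [sq_nonneg (f (g k) n + Φ n)]
    rw [hind.tsum_add (((hFE (g k)).2.add hF2).mul_left _), hindt, tsum_mul_left,
      (hFE (g k)).2.tsum_add hF2] at h4
    have h9 : 2 / R * (∑' n, Pool.Agent.N657.QR.sq n * f (g k) n ^ 2 + ∑' n, Pool.Agent.N657.QR.sq n * Φ n ^ 2) ≤ 2 / R * (2 * (C2 + 1)) :=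
      mul_le_mul_of_nonneg_left (by linarith [hsq (g k)]) (by positivity)
    have h10 : 2 / R * (2 * (C2 + 1)) = ε / 2 := by rw [hR]; field_simp; norm_num
    linarith
  -- convergence of the correlations
  have hcrt : ∀ x y, Tendsto (fun k => cr x y (f (g k))) atTop (𝓝 (cr x y Φ)) := by
    intro x y
    obtain ⟨s1, t1⟩ := prod_null (u := fun k n => f (g k) n - Φ n)
      (v := fun k n => f (g k) (hp x y n)) (M := 1) hdiffs
      (fun k => (sum_sh (x := x) (y := y) (hFE (g k)).1).1) hstrong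
      (fun k => by
        rw [(sum_sh (x := x) (y := y) (hFE (g k)).1).2]
        exact (hnr (g k)).le)
    obtain ⟨s2, t2⟩ := prod_null (u := fun k n => f (g k) (hp x y n) - Φ (hp x y n))
      (v := fun _ n => Φ n) (M := ∑' n, Φ n ^ 2)
      (fun k => (sum_sh (x := x) (y := y) (hdiffs k)).1) (fun _ => hF1)
      (by
        refine hstrong.congr fun k => ?_
        exact (sum_sh (x := x) (y := y) (hdiffs k)).2.symm)
      (fun _ => le_rfl)
    have h1 := (t1.add t2).add_const (cr x y Φ)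
    rw [add_zero, zero_add] at h1
    refine h1.congr fun k => ?_
    have hcs := hB.crsum x y Φ hF1
    unfold cr
    rw [← (s1 k).tsum_add (s2 k), ← ((s1 k).add (s2 k)).tsum_add hcs]
    refine tsum_congr fun n => ?_
    ring
  obtain ⟨x0⟩ := (inferInstance : Nonempty V)
  have hnrΦ : nr Φ = 1 := by
    have h1 := hcrt x0 x0
    rw [hB.crself] at h1
    have h2 : (fun k => cr x0 x0 (f (g k))) = fun _ => (1 : ℝ) := by
      funext k
      rw [hB.crself, hnr]
    rw [h2] at h1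
    exact (tendsto_nhds_unique h1 tendsto_const_nhds)
  have hSecΦ : Sec N Φ := by
    intro n hn
    have h1 := (hpt n).eventually_ne hn
    obtain ⟨k, hk⟩ := h1.exists
    exact hSec (g k) n hk
  have hlimg : Tendsto (fun k => FF K w ν (f (g k))) atTop (𝓝 (en K w ν N)) :=
    hlim.comp hg.tendsto_atTop
  have hcrsum : Tendsto (fun k => ∑ x, ∑ y, w x y * cr x y (f (g k))) atTop
      (𝓝 (∑ x, ∑ y, w x y * cr x y Φ)) :=
    tendsto_finsetSum _ fun x _ => tendsto_finsetSum _ fun y _ => (hcrt x y).const_mul _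
  have hpolim : Tendsto (fun k => po K ν (f (g k))) atTop
      (𝓝 (en K w ν N + ∑ x, ∑ y, w x y * cr x y Φ)) := by
    refine (hlimg.add hcrsum).congr fun k => ?_
    unfold FF
    ring
  have hpoΦ : po K ν Φ ≤ en K w ν N + ∑ x, ∑ y, w x y * cr x y Φ := by
    refine (hB.posum K ν Φ hFEΦ).tsum_le_of_sum_le fun S => ?_
    refine le_of_tendsto_of_tendsto'
      (tendsto_finsetSum S fun n _ => (hptsq n).const_mul (pot K ν n)) hpolim fun k => ?_
    exact (hB.posum K ν _ (hFE (g k))).sum_le_tsum S fun n _ =>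
      mul_nonneg (hB.potnn K ν n hKs) (sq_nonneg _)
  have hlow2 := hL K w ν N Φ hKs hw hFEΦ hSecΦ
  rw [hnrΦ, mul_one] at hlow2
  refine ⟨Φ, ⟨hFEΦ, hSecΦ, hnrΦ, le_antisymm ?_ hlow2⟩, g, hg, hcrt⟩
  unfold FF
  linarith

end Pool.Agent.N657.QR.CPTN835
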