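import Pool.Agent.N657.QR.Fin
import Pool.Agent.N169.QR_BAS
import Pool.Agent.N2.QR_FIN
import Pool.Agent.N346.QR_FSH
import Pool.Agent.N966.QR_E2R
import Pool.Agent.N286.QR_E2L
import Pool.Agent.N833.QR_E2P
import Pool.Agent.N40.QR_RSD
import Pool.Agent.N40.QR_DIA
import Pool.Agent.N803.QR.INC
import Pool.Agent.N407.QR_APP
import Pool.Agent.N615.QR_LB
import Pool.Agent.N657.QR.CPT
import Pool.Agent.N615.QR_EX
import Pool.Agent.N401.QR_EIG
import Pool.Agent.N407.QR_UN
import Pool.Agent.N615.QR_CON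
import Pool.Agent.N456.QR_RPS
import Pool.Agent.N8.QR_RPV
import Pool.Agent.N664.QR_REFL
import Pool.Agent.N92.QR_GD0
import Pool.Agent.N498.QR_GD
import Pool.Agent.N97.QR_DC
import Pool.Agent.N596.QR_IRB
import Pool.Agent.N157.QR_FOU
import Pool.Agent.N615.QR_LAT
import Pool.Agent.N163.QR_NEU
import Pool.Agent.N763.QR_CMP
import Pool.Agent.N855.QR_CPX

/-!
# Project QR: all parts together
-/

namespace Pool.Agent.N657.QR

theorem bas : S_BAS := Pool.Agent.N169.QR_BAS.main
theorem fin : S_FIN := Pool.Agent.N2.QR.main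
theorem fsh : S_FSH := Pool.Agent.N346.QR_FSH.main fin
theorem e2r : S_E2R := Pool.Agent.N966.QR_E2R.main fsh
theorem e2l : S_E2L := Pool.Agent.N286.QR.main bas
theorem e2p : S_E2P := Pool.Agent.N833.QRE2P.main
theorem rsd : S_RSD := Pool.Agent.N40.QR.RSD.main bas e2p e2r e2l
theorem dia : S_DIA := Pool.Agent.N40.QR.DIA.main bas rsd
theorem inc : S_INC := Pool.Agent.N803.QR.INC.main bas rsd
theorem app : S_APP := Pool.Agent.N407.QR_APP.main bas
theorem lb : S_LB := Pool.Agent.N615.QRLB.main bas app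
theorem cpt : S_CPT := Pool.Agent.N657.QR.CPTN835.main bas lb
theorem ex : S_EX := Pool.Agent.N615.QREX.main bas cpt
theorem eig : S_EIG := Pool.Agent.N401.QREIG.main bas lb
theorem un : S_UN := Pool.Agent.N407.QR_UN.main bas lb eig
theorem con : S_CON := Pool.Agent.N615.QRCON.main
theorem rps : S_RPS := Pool.Agent.N456.QR.main bas fsh
theorem rpv : S_RPV := Pool.Agent.N8.QRRPV.main bas rps
theorem refl : S_REFL := Pool.Agent.N664.QR_REFL.main bas rpv
theorem gd0 : S_GD0 := Pool.Agent.N92.QR.main bas refl dia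
theorem gd : S_GD := Pool.Agent.N498.QRGD.main bas app gd0
theorem dc : S_DC := Pool.Agent.N97.QR.main bas eig
theorem irb : S_IRB := Pool.Agent.N596.QRIRB.main bas gd dc
theorem fou : S_FOU := Pool.Agent.N157.QR_FOU.main
theorem lat : S_LAT := Pool.Agent.N615.QRLAT.main
theorem neu : S_NEU := Pool.Agent.N163.QRNeu.main bas irb fou lat
theorem cmp : S_CMP := Pool.Agent.N763.QRCMP.main bas inc cpt ex un lb
theorem cpx : S_CPX := Pool.Agent.N855.QR_CPX.main bas lb un

end Pool.Agent.N657.QR
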