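import Mathlib

/-!
# Quantum rotors (lattice bosons at large filling): definitions of project QR

`V` is the finite set of sites, a configuration `n : V → ℤ` gives the number of particles at each
site relative to a background.  The Hamiltonian is
`H = ∑ x y, K x y (n_x - ν_x) (n_y - ν_y) - ∑ x y, w x y cos (θ_x - θ_y)`,
where `e^{i (θ_x - θ_y)}` moves a particle from `y` to `x`.
-/

namespace Pool.Agent.N657.QR

open Filter Topology

section General

variable {V : Type} [Fintype V] [DecidableEq V]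

/-- One particle at `x`. -/
def dl (x : V) : V → ℤ := Pi.single x 1

/-- One particle is moved from `y` to `x`. -/
def hp (x y : V) (n : V → ℤ) : V → ℤ := n + dl x - dl y

/-- Total number of particles. -/
def tot (n : V → ℤ) : ℤ := ∑ x, n x

/-- Potential energy of a configuration. -/
def pot (K : Matrix V V ℝ) (ν : V → ℝ) (n : V → ℤ) : ℝ :=
  ∑ x, ∑ y, K x y * (((n x : ℝ) - ν x) * ((n y : ℝ) - ν y))

/-- `∑ n_x²`. -/
def sq (n : V → ℤ) : ℝ := ∑ x, (n x : ℝ) ^ 2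

/-- Squared norm of a real wave function. -/
noncomputable def nr (ψ : (V → ℤ) → ℝ) : ℝ := ∑' n, ψ n ^ 2

/-- Potential energy of a real wave function. -/
noncomputable def po (K : Matrix V V ℝ) (ν : V → ℝ) (ψ : (V → ℤ) → ℝ) : ℝ :=
  ∑' n, pot K ν n * ψ n ^ 2

/-- `⟨ψ, cos (θ_x - θ_y) ψ⟩` for a real wave function. -/
noncomputable def cr (x y : V) (ψ : (V → ℤ) → ℝ) : ℝ := ∑' n, ψ (hp x y n) * ψ n

/-- `⟨ψ, cos θ_x ψ⟩` for a real wave function. -/
noncomputable def xx (x : V) (ψ : (V → ℤ) → ℝ) : ℝ := ∑' n, ψ (n + dl x) * ψ n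

/-- The energy form. -/
noncomputable def FF (K : Matrix V V ℝ) (w : V → V → ℝ) (ν : V → ℝ) (ψ : (V → ℤ) → ℝ) : ℝ :=
  po K ν ψ - ∑ x, ∑ y, w x y * cr x y ψ

/-- Finite support. -/
def fs (ψ : (V → ℤ) → ℝ) : Prop := (Function.support ψ).Finite

/-- `ψ` has `N` particles. -/
def Sec (N : ℤ) (ψ : (V → ℤ) → ℝ) : Prop := ∀ n, ψ n ≠ 0 → tot n = N

/-- The ground state energy of the sector with `N` particles. -/
noncomputable def en (K : Matrix V V ℝ) (w : V → V → ℝ) (ν : V → ℝ) (N : ℤ) : ℝ :=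
  sInf {e | ∃ ψ : (V → ℤ) → ℝ, fs ψ ∧ Sec N ψ ∧ nr ψ = 1 ∧ e = FF K w ν ψ}

/-- Finite energy. -/
def FE (ψ : (V → ℤ) → ℝ) : Prop :=
  Summable (fun n => ψ n ^ 2) ∧ Summable (fun n => sq n * ψ n ^ 2)

/-- `ψ` is a real ground state of the sector with `N` particles. -/
def IsG (K : Matrix V V ℝ) (w : V → V → ℝ) (ν : V → ℝ) (N : ℤ) (ψ : (V → ℤ) → ℝ) : Prop :=
  FE ψ ∧ Sec N ψ ∧ nr ψ = 1 ∧ FF K w ν ψ = en K w ν N

/-- The function `w` increased by `s` at the pair `(x, y)`. -/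
def bump (w : V → V → ℝ) (x y : V) (s : ℝ) : V → V → ℝ :=
  fun a b => w a b + if a = x ∧ b = y then s else 0

/-- Any two configurations with the same number of particles are connected by hops. -/
def Conn (w : V → V → ℝ) : Prop :=
  ∀ n n' : V → ℤ, tot n = tot n' →
    Relation.ReflTransGen
      (fun a b : V → ℤ => ∃ x y, 0 < w x y ∧ (b = hp x y a ∨ b = hp y x a)) n n'

/-- `∑ g_x cos θ_x` applied to `ψ`. -/
noncomputable def XA (g : V → ℝ) (ψ : (V → ℤ) → ℝ) : (V → ℤ) → ℝ :=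
  fun n => (∑ x, g x * (ψ (n + dl x) + ψ (n - dl x))) / 2

/-- Two-replica functions: `p` and `q` are the sum and the difference of two configurations. -/
def Par (A B : ℤ) (M : (V → ℤ) → (V → ℤ) → ℝ) : Prop :=
  ∀ p q, M p q ≠ 0 → (∀ x, (2 : ℤ) ∣ p x - q x) ∧ tot p = A ∧ tot q = B

/-- Finite support. -/
def fs2 (M : (V → ℤ) → (V → ℤ) → ℝ) : Prop :=
  (Function.support (fun z : (V → ℤ) × (V → ℤ) => M z.1 z.2)).Finite

/-- Squared norm of a two-replica function. -/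
noncomputable def nr2 (M : (V → ℤ) → (V → ℤ) → ℝ) : ℝ :=
  ∑' z : (V → ℤ) × (V → ℤ), M z.1 z.2 ^ 2

/-- Energy of two replicas in the variables `p` (sum) and `q` (difference). -/
noncomputable def E2 (K₁ K₂ : Matrix V V ℝ) (w₁ w₂ : V → V → ℝ) (a b : V → ℝ)
    (M : (V → ℤ) → (V → ℤ) → ℝ) : ℝ :=
  (∑' z : (V → ℤ) × (V → ℤ),
    (∑ x, ∑ y, ((K₁ x y + K₂ x y) / 4 *
        (((z.1 x : ℝ) - a x) * ((z.1 y : ℝ) - a y) + ((z.2 x : ℝ) - b x) * ((z.2 y : ℝ) - b y))
      + (K₁ x y - K₂ x y) / 2 * (((z.1 x : ℝ) - a x) * ((z.2 y : ℝ) - b y)))) * M z.1 z.2 ^ 2)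
  - ∑ x, ∑ y,
      (w₁ x y * (∑' z : (V → ℤ) × (V → ℤ), M (hp x y z.1) (hp x y z.2) * M z.1 z.2)
        + w₂ x y * (∑' z : (V → ℤ) × (V → ℤ), M (hp x y z.1) (hp y x z.2) * M z.1 z.2))

end General

section Layers

variable {A : Type} [Fintype A] [DecidableEq A]

/-- Two copies `A × {false}`, `A × {true}` of a system, coupled by `κ`, in a site field `k`. -/
noncomputable def KK (U : ℝ) (w : A → A → ℝ) (κ : A → ℝ) (k : A × Bool → ℝ)
    (ψ : (A × Bool → ℤ) → ℝ) : ℝ :=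
  U * (∑' n, sq n * ψ n ^ 2)
    - (∑ a, ∑ a', w a a' * (cr (a, false) (a', false) ψ + cr (a, true) (a', true) ψ))
    - (∑ a, κ a * cr (a, false) (a, true) ψ) - ∑ x, k x * xx x ψ

end Layers

section Site

variable {V : Type} [Fintype V] [DecidableEq V]

/-- Energy with equal charging energies `U`, hopping `w` and site field `k`. -/
noncomputable def HH (U : ℝ) (w : V → V → ℝ) (k : V → ℝ) (ψ : (V → ℤ) → ℝ) : ℝ :=
  U * (∑' n, sq n * ψ n ^ 2) - (∑ x, ∑ y, w x y * cr x y ψ) - ∑ x, k x * xx x ψ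

end Site

section Torus

variable {d L : ℕ} [NeZero L]

/-- Unit vector of the torus. -/
def ee (i : Fin d) : Fin d → ZMod L := Pi.single i 1

/-- Nearest neighbour hopping. -/
def nnw (J : ℝ) (x y : Fin d → ZMod L) : ℝ := ∑ i : Fin d, if y = x + ee i then J else 0

/-- Energy in a bond field `h`. -/
noncomputable def GK (U J : ℝ) (h : (Fin d → ZMod L) → Fin d → ℝ)
    (ψ : ((Fin d → ZMod L) → ℤ) → ℝ) : ℝ :=
  U * (∑' n, sq n * ψ n ^ 2) - J * (∑ x, ∑ i, cr x (x + ee i) ψ)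
    - J * (∑ x, ∑ i, h x i * (xx x ψ - xx (x + ee i) ψ))
    + J / 2 * (∑ x, ∑ i, h x i ^ 2) * nr ψ

/-- Reflection between the planes `x_i = c - 1` and `x_i = c`. -/
def rho (i : Fin d) (c : ZMod L) (x : Fin d → ZMod L) : Fin d → ZMod L :=
  Function.update x i (2 * c - 1 - x i)

/-- The two halves of the torus, `x_i ∈ {c, ..., c + L/2 - 1}` is the half `true`. -/
def side (i : Fin d) (c : ZMod L) (x : Fin d → ZMod L) : Bool := decide ((x i - c).val < L / 2)

/-- The bond field which agrees with `h` on the half `s`, is reflected to the other half, and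
vanishes on the bonds between the halves. -/
def rf (i : Fin d) (c : ZMod L) (s : Bool) (h : (Fin d → ZMod L) → Fin d → ℝ) :
    (Fin d → ZMod L) → Fin d → ℝ :=
  fun x j =>
    if j = i then
      if side i c x = s ∧ side i c (x + ee i) = s then h x i
      else if side i c x ≠ s ∧ side i c (x + ee i) ≠ s then -h (rho i c (x + ee i)) i
      else 0
    else if side i c x = s then h x j else h (rho i c x) j

/-- The discrete Laplace operator (nonnegative). -/
def lap (f : (Fin d → ZMod L) → ℝ) (x : Fin d → ZMod L) : ℝ :=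
  ∑ i : Fin d, (2 * f x - f (x + ee i) - f (x - ee i))

/-- The eigenvalue of the Laplace operator at the momentum `k`. -/
noncomputable def lam (k : Fin d → ZMod L) : ℝ :=
  ∑ i : Fin d, (2 - 2 * Real.cos (2 * Real.pi * ((k i).val : ℝ) / (L : ℝ)))

end Torus

section Complex

variable {V : Type} [Fintype V] [DecidableEq V]

/-- A normalised complex wave function of finite energy with `N` particles. -/
structure IsState (N : ℤ) (ψ : (V → ℤ) → ℂ) : Prop where
  sector : ∀ n, ψ n ≠ 0 → ∑ x, n x = N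
  norm_one : HasSum (fun n => ‖ψ n‖ ^ 2) 1
  finite_energy : Summable (fun n : V → ℤ => (∑ x, (n x : ℝ) ^ 2) * ‖ψ n‖ ^ 2)

/-- `⟨ψ, e^{i (θ_x - θ_y)} ψ⟩`, where `e^{i (θ_x - θ_y)}` moves a particle from `y` to `x`. -/
noncomputable def corr (x y : V) (ψ : (V → ℤ) → ℂ) : ℂ :=
  ∑' n : V → ℤ, (starRingEnd ℂ) (ψ (n + Pi.single x 1 - Pi.single y 1)) * ψ n

/-- The energy of a complex wave function. -/
noncomputable def energy (K : Matrix V V ℝ) (w : V → V → ℝ) (ν : V → ℝ) (ψ : (V → ℤ) → ℂ) : ℝ :=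
  (∑' n : V → ℤ, (∑ x, ∑ y, K x y * (((n x : ℝ) - ν x) * ((n y : ℝ) - ν y))) * ‖ψ n‖ ^ 2)
    - ∑ x, ∑ y, w x y * (corr x y ψ).re

/-- `ψ` is a ground state among the states with `N` particles. -/
def IsGroundState (K : Matrix V V ℝ) (w : V → V → ℝ) (ν : V → ℝ) (N : ℤ)
    (ψ : (V → ℤ) → ℂ) : Prop :=
  IsState N ψ ∧ ∀ φ, IsState N φ → energy K w ν ψ ≤ energy K w ν φ

/-- The condensate fraction `|V|⁻² ∑_{x,y} ⟨e^{i (θ_x - θ_y)}⟩`. -/
noncomputable def condensate (ψ : (V → ℤ) → ℂ) : ℝ :=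
  (∑ x, ∑ y, (corr x y ψ).re) / (Fintype.card V : ℝ) ^ 2

end Complex

end Pool.Agent.N657.QR
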