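import Pool.Agent.N657.QR.Stm

/-!
# Final assembly of project QR
-/

namespace Pool.Agent.N657.QR

open Filter Topology

/-- The main theorem, from the parts. -/
theorem main_of (hB : S_BAS) (hX : S_EX) (hN : S_NEU) (hCmp : S_CMP) (hCpx : S_CPX)
    (hCon : S_CON) (d : ℕ) (hd : 2 ≤ d) :
    ∃ C : ℝ, 0 < C ∧ ∀ (L : ℕ) [NeZero L], Even L → ∀ (U J : ℝ), 0 < U → 0 < J →
      ∀ (K : Matrix (Fin d → ZMod L) (Fin d → ZMod L) ℝ) (ν : (Fin d → ZMod L) → ℝ)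
        (w : (Fin d → ZMod L) → (Fin d → ZMod L) → ℝ),
        K.PosDef → (U • (1 : Matrix (Fin d → ZMod L) (Fin d → ZMod L) ℝ) - K).PosSemidef →
        (∀ x y, 0 ≤ w x y) → (∀ x i, J ≤ w x (x + ee i)) → ∀ N : ℤ,
          (∃ ψ, IsGroundState K w ν N ψ) ∧
          (∀ ψ φ, IsGroundState K w ν N ψ → IsGroundState K w ν N φ →
            ∃ c : ℂ, ‖c‖ = 1 ∧ ∀ n, φ n = c * ψ n) ∧
          ∀ ψ, IsGroundState K w ν N ψ → 1 - C * Real.sqrt (U / J) ≤ condensate ψ := by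
  obtain ⟨C, hC, hNeu⟩ := hN d hd
  refine ⟨C, hC, ?_⟩
  intro L _ hL U J hU hJ K ν w hK hKU hw hwJ N
  have hL2 : 2 ≤ L := by
    rcases hL with ⟨m, hm⟩
    have : L ≠ 0 := NeZero.ne L
    omega
  have hconn : Conn w := hCon.1 w (hCon.2.1 d L w (fun x i => lt_of_lt_of_le hJ (hwJ x i)))
  have hnn : ∀ x y, nnw J x y ≤ w x y := hCon.2.2 d L J w hL2 hw hwJ
  have hnn0 : ∀ x y : Fin d → ZMod L, 0 ≤ nnw J x y := by
    intro x y
    unfold nnw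
    refine Finset.sum_nonneg fun i _ => ?_
    split_ifs
    · exact hJ.le
    · exact le_rfl
  obtain ⟨Φ, hΦ⟩ := hX K w ν N hK hw
  obtain ⟨hgs, huniq⟩ := hCpx K w ν N Φ hK hw hconn hΦ
  refine ⟨⟨_, hgs⟩, ?_, ?_⟩
  · intro ψ φ hψ hφ
    obtain ⟨⟨c, hc, hcψ⟩, -⟩ := huniq ψ hψ
    obtain ⟨⟨c', hc', hcφ⟩, -⟩ := huniq φ hφ
    refine ⟨c' / c, by rw [norm_div, hc, hc', div_one], fun n => ?_⟩
    have hc0 : c ≠ 0 := by
      intro h
      rw [h, norm_zero] at hc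
      exact zero_ne_one hc
    rw [hcψ, hcφ]
    field_simp
  · intro ψ hψ
    obtain ⟨-, hcorr⟩ := huniq ψ hψ
    have hU1 : (U • (1 : Matrix (Fin d → ZMod L) (Fin d → ZMod L) ℝ)).PosDef :=
      Matrix.PosDef.one.smul hU
    obtain ⟨Ψ, hΨ⟩ := hX (U • (1 : Matrix (Fin d → ZMod L) (Fin d → ZMod L) ℝ)) (nnw J) 0 0
      hU1 hnn0
    have h1 := hNeu L U J Ψ hL hU hJ hΨ
    have h2 : ∀ x y, cr x y Ψ ≤ cr x y Φ := hCmp K _ w (nnw J) ν N Φ Ψ hK hKU hnn0 hnn hconn hΦ hΨ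
    have hcard : (0 : ℝ) < (Fintype.card (Fin d → ZMod L) : ℝ) := by
      exact_mod_cast Fintype.card_pos
    unfold condensate
    rw [le_div_iff₀ (by positivity)]
    refine h1.trans ?_
    refine Finset.sum_le_sum fun x _ => Finset.sum_le_sum fun y _ => ?_
    rw [hcorr x y]
    exact h2 x y

end Pool.Agent.N657.QR
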